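import Pool.Agent.H13.HR.Hard

/-!
# Correctness of the algorithm
-/

namespace H13.HR

open Finset

theorem memC_iff (x : Lit) (C : List Lit) : (memC x C).1 = true ↔ x ∈ C := by
  induction C with
  | nil => simp [memC]
  | cons y C ih =>
    unfold memC
    by_cases h : y = x
    · simp [h]
    · have h' : ¬ x = y := fun h2 => h h2.symm
      simp [h, h', ih]

theorem delC_toFinset (x : Lit) (C : List Lit) : (delC x C).1.toFinset = C.toFinset.erase x := by
  induction C with
  | nil => simp [delC]
  | cons y C ih =>
    unfold delC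
    by_cases h : y = x
    · subst h
      simp only [if_true, ih, List.toFinset_cons]
      ext z
      simp only [mem_erase, mem_insert]
      tauto
    · simp only [h, if_false, ih, List.toFinset_cons]
      ext z
      simp only [mem_erase, mem_insert]
      constructor
      · rintro (rfl | ⟨h1, h2⟩)
        · exact ⟨h, Or.inl rfl⟩
        · exact ⟨h1, Or.inr h2⟩
      · rintro ⟨h1, rfl | h2⟩
        · exact Or.inl rfl
        · exact Or.inr ⟨h1, h2⟩

theorem mem_toSet (F : List (List Lit)) (D : Finset Lit) :
    D ∈ toSet F ↔ ∃ C ∈ F, C.toFinset = D := by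
  unfold toSet
  rw [List.mem_toFinset, List.mem_map]

theorem mem_assign (x : Lit) (F : List (List Lit)) (D : Finset Lit) :
    D ∈ toSet (assign x F).1 ↔ ∃ C ∈ F, x ∉ C ∧ C.toFinset.erase (neg x) = D := by
  rw [mem_toSet]
  induction F with
  | nil => simp [assign]
  | cons C F ih =>
    unfold assign
    by_cases h : (memC x C).1 = true
    · simp only [h, if_true]
      rw [ih]
      have hx := (memC_iff x C).1 h
      constructor
      · rintro ⟨C', h1, h2, h3⟩
        exact ⟨C', List.mem_cons_of_mem _ h1, h2, h3⟩
      · rintro ⟨C', h1, h2, h3⟩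
        rcases List.mem_cons.1 h1 with rfl | h1
        · exact absurd hx h2
        · exact ⟨C', h1, h2, h3⟩
    · have hx : x ∉ C := fun h2 => h ((memC_iff x C).2 h2)
      simp only [h, if_false]
      constructor
      · rintro ⟨C', h1, h2⟩
        rcases List.mem_cons.1 h1 with rfl | h1
        · exact ⟨C, List.mem_cons_self, hx, by rw [← h2, delC_toFinset]⟩
        · obtain ⟨C'', h3, h4, h5⟩ := ih.1 ⟨C', h1, h2⟩
          exact ⟨C'', List.mem_cons_of_mem _ h3, h4, h5⟩
      · rintro ⟨C', h1, h2, h3⟩
        rcases List.mem_cons.1 h1 with rfl | h1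
        · exact ⟨_, List.mem_cons_self, by rw [delC_toFinset, h3]⟩
        · obtain ⟨C'', h4, h5⟩ := ih.2 ⟨C', h1, h2, h3⟩
          exact ⟨C'', List.mem_cons_of_mem _ h4, h5⟩

theorem toSet_assign (x : Lit) (F : List (List Lit)) :
    toSet (assign x F).1 = restr x (toSet F) := by
  ext D
  rw [mem_assign]
  unfold restr
  rw [mem_image]
  constructor
  · rintro ⟨C, h1, h2, h3⟩
    refine ⟨C.toFinset, mem_filter.2 ⟨(mem_toSet F _).2 ⟨C, h1, rfl⟩, ?_⟩, h3⟩
    rwa [List.mem_toFinset]
  · rintro ⟨C, h1, h2⟩
    rw [mem_filter, mem_toSet] at h1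
    obtain ⟨⟨C', h3, rfl⟩, h4⟩ := h1
    rw [List.mem_toFinset] at h4
    exact ⟨C', h3, h4, h2⟩

theorem hasEmpty_iff (F : List (List Lit)) : (hasEmpty F).1 = true ↔ ∅ ∈ toSet F := by
  rw [mem_toSet]
  induction F with
  | nil => simp [hasEmpty]
  | cons C F ih =>
    unfold hasEmpty
    by_cases h : C.isEmpty = true
    · have : C = [] := List.isEmpty_iff.1 h
      subst this
      simp
    · have h' : C ≠ [] := fun h2 => h (List.isEmpty_iff.2 h2)
      simp only [h, if_false, Bool.false_eq_true, ih]
      constructor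
      · rintro ⟨C', h1, h2⟩
        exact ⟨C', List.mem_cons_of_mem _ h1, h2⟩
      · rintro ⟨C', h1, h2⟩
        rcases List.mem_cons.1 h1 with rfl | h1
        · rw [List.toFinset_eq_empty_iff] at h2
          exact absurd h2 h'
        · exact ⟨C', h1, h2⟩

theorem mem_app (C D : List Lit) (x : Lit) : x ∈ (app C D).1 ↔ x ∈ C ∨ x ∈ D := by
  induction C with
  | nil => simp [app]
  | cons y C ih => simp [app, ih, or_assoc]

theorem mem_lits (F : List (List Lit)) (x : Lit) : x ∈ (lits F).1 ↔ ∃ C ∈ F, x ∈ C := by
  induction F with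
  | nil => simp [lits]
  | cons C F ih => simp [lits, mem_app, ih]

theorem len_eq {α : Type} (C : List α) : (len C).1 = C.length := by
  induction C with
  | nil => rfl
  | cons y C ih => simp [len, ih]

theorem first_some (g : Lit → Bool × ℕ) (C : List Lit) (x : Lit) (h : (first g C).1 = some x) :
    x ∈ C ∧ (g x).1 = true := by
  induction C with
  | nil => simp [first] at h
  | cons y C ih =>
    unfold first at h
    by_cases hy : (g y).1 = true
    · simp only [hy, if_true, Option.some.injEq] at h
      subst h
      exact ⟨List.mem_cons_self, hy⟩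
    · simp only [hy, if_false, Bool.false_eq_true] at h
      obtain ⟨h1, h2⟩ := ih h
      exact ⟨List.mem_cons_of_mem _ h1, h2⟩

theorem first_none (g : Lit → Bool × ℕ) (C : List Lit) (h : (first g C).1 = none) :
    ∀ x ∈ C, (g x).1 = false := by
  induction C with
  | nil => simp
  | cons y C ih =>
    unfold first at h
    by_cases hy : (g y).1 = true
    · simp [hy] at h
    · simp only [hy, if_false, Bool.false_eq_true] at h
      intro x hx
      rcases List.mem_cons.1 hx with rfl | hx
      · simpa using hy
      · exact ih h x hx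

theorem not_sat_of_empty {F : Finset (Finset Lit)} (h : ∅ ∈ F) : ¬ Sat F := by
  rintro ⟨τ, hτ⟩
  obtain ⟨x, hx, _⟩ := hτ _ h
  simp at hx

theorem sat_restr_of {F : Finset (Finset Lit)} (x : Lit) {τ : ℕ → Bool}
    (hτ : ∀ C ∈ F, ∃ y ∈ C, τ y.1 = y.2) (hx : τ x.1 = x.2) : Sat (restr x F) := by
  refine ⟨τ, fun C hC => ?_⟩
  unfold restr at hC
  rw [mem_image] at hC
  obtain ⟨C0, h1, rfl⟩ := hC
  rw [mem_filter] at h1
  obtain ⟨y, hy, hy2⟩ := hτ C0 h1.1
  refine ⟨y, mem_erase.2 ⟨?_, hy⟩, hy2⟩
  rintro rfl
  simp only [neg] at hy2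
  rw [hx] at hy2
  cases h : x.2 <;> simp [h] at hy2

theorem not_sat_split {F : Finset (Finset Lit)} (x : Lit) (h1 : ¬ Sat (restr x F))
    (h2 : ¬ Sat (restr (neg x) F)) : ¬ Sat F := by
  rintro ⟨τ, hτ⟩
  by_cases hx : τ x.1 = x.2
  · exact h1 (sat_restr_of x hτ hx)
  · apply h2 (sat_restr_of (neg x) hτ _)
    simp only [neg]
    cases h3 : x.2 <;> cases h4 : τ x.1 <;> simp_all

/-- Unfolding of the recursive step. -/
theorem refute_succ (n e : ℕ) (F : List (List Lit)) (h : ¬ (hasEmpty F).1 = true) :
    (refute (n + 1) (e + 1) F).1 = true ↔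
      ∃ x, (first (fun x => ((refute n e (assign x F).1).1,
        (assign x F).2 + (refute n e (assign x F).1).2)) (both (lits F).1).1).1 = some x ∧
        (refute n (e + 1) (assign (neg x) F).1).1 = true := by
  rw [refute]
  simp only [h, if_false, Bool.false_eq_true]
  generalize first (fun x => ((refute n e (assign x F).1).1,
        (assign x F).2 + (refute n e (assign x F).1).2)) (both (lits F).1).1 = r
  obtain ⟨o, c⟩ := r
  cases o with
  | none => simp
  | some x => simp

/-- Soundness. -/
theorem refute_sound (n d : ℕ) (F : List (List Lit)) (h : (refute n d F).1 = true) :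
    ¬ Sat (toSet F) := by
  induction n generalizing d F with
  | zero =>
    rw [refute] at h
    exact not_sat_of_empty ((hasEmpty_iff F).1 h)
  | succ n ih =>
    by_cases he : (hasEmpty F).1 = true
    · exact not_sat_of_empty ((hasEmpty_iff F).1 he)
    · cases d with
      | zero =>
        rw [refute] at h
        simp [he] at h
      | succ e =>
        rw [refute_succ n e F he] at h
        obtain ⟨x, h1, h2⟩ := h
        obtain ⟨_, h3⟩ := first_some _ _ _ h1
        apply not_sat_split x
        · rw [← toSet_assign]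
          exact ih e _ h3
        · rw [← toSet_assign]
          exact ih (e + 1) _ h2

theorem neg_neg' (x : Lit) : neg (neg x) = x := by
  simp [neg]

theorem mem_both (C : List Lit) (x : Lit) : x ∈ (both C).1 ↔ x ∈ C ∨ neg x ∈ C := by
  induction C with
  | nil => simp [both]
  | cons y C ih =>
    simp only [both, List.mem_cons, ih]
    have : x = neg y ↔ neg x = y := by
      constructor
      · rintro rfl; exact neg_neg' y
      · rintro rfl; exact (neg_neg' x).symm
    rw [this]
    tauto

theorem restr_of_not_occ {F : Finset (Finset Lit)} (x : Lit)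
    (h : ∀ C ∈ F, x ∉ C ∧ neg x ∉ C) : restr x F = F := by
  unfold restr
  ext D
  rw [mem_image]
  constructor
  · rintro ⟨C, h1, rfl⟩
    rw [mem_filter] at h1
    rw [erase_eq_of_notMem (h C h1.1).2]
    exact h1.1
  · intro h1
    exact ⟨D, mem_filter.2 ⟨h1, (h D h1).1⟩, erase_eq_of_notMem (h D h1).2⟩

/-- A refutation of hardness `d + 1` without an empty clause has a literal of an occurring variable
whose restriction has hardness `d` (if the splitting variable does not occur, the restriction is
`F` itself). -/
theorem HD_occ {d : ℕ} {F : Finset (Finset Lit)} (h : HD (d + 1) F) (he : ∅ ∉ F) :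
    ∃ x, (∃ C ∈ F, x ∈ C ∨ neg x ∈ C) ∧ HD d (restr x F) := by
  cases h with
  | nil _ _ h => exact absurd h he
  | node _ _ x h0 h1 =>
    by_cases hx : ∃ C ∈ F, x ∈ C ∨ neg x ∈ C
    · exact ⟨x, hx, h0⟩
    · push Not at hx
      rw [restr_of_not_occ x hx] at h0
      have hne : F.Nonempty := by
        rw [nonempty_iff_ne_empty]
        rintro rfl
        exact h0.unsat ⟨fun _ => true, by simp⟩
      obtain ⟨C, hC⟩ := hne
      have hC2 : C.Nonempty := by
        rw [nonempty_iff_ne_empty]
        rintro rfl
        exact he hC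
      obtain ⟨y, hy⟩ := hC2
      exact ⟨y, ⟨C, hC, Or.inl hy⟩, HD_restr h0 y⟩

theorem mem_vars (F : Finset (Finset Lit)) (v : ℕ) :
    v ∈ (F.sup id).image Prod.fst ↔ ∃ C ∈ F, ∃ y ∈ C, y.1 = v := by
  rw [mem_image]
  constructor
  · rintro ⟨y, hy, rfl⟩
    rw [mem_sup] at hy
    obtain ⟨C, hC, hy⟩ := hy
    exact ⟨C, hC, y, hy, rfl⟩
  · rintro ⟨C, hC, y, hy, rfl⟩
    exact ⟨y, mem_sup.2 ⟨C, hC, hy⟩, rfl⟩

theorem lit_cases {x y : Lit} (h : y.1 = x.1) : y = x ∨ y = neg x := by
  obtain ⟨a, b⟩ := x
  obtain ⟨c, d⟩ := y
  simp only at h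
  subst h
  cases b <;> cases d <;> simp [neg]

theorem vars_restr {F : Finset (Finset Lit)} (x : Lit) (n : ℕ)
    (hx : ∃ C ∈ F, x ∈ C ∨ neg x ∈ C) (hn : ((F.sup id).image Prod.fst).card ≤ n + 1) :
    (((restr x F).sup id).image Prod.fst).card ≤ n := by
  have h1 : ((restr x F).sup id).image Prod.fst ⊆ ((F.sup id).image Prod.fst).erase x.1 := by
    intro v hv
    rw [mem_vars] at hv
    obtain ⟨C, hC, y, hy, rfl⟩ := hv
    unfold restr at hC
    rw [mem_image] at hC
    obtain ⟨C0, h2, rfl⟩ := hC
    rw [mem_filter] at h2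
    rw [mem_erase] at hy
    refine mem_erase.2 ⟨?_, (mem_vars F _).2 ⟨C0, h2.1, y, hy.2, rfl⟩⟩
    intro h3
    rcases lit_cases h3 with h4 | h4
    · subst h4
      exact h2.2 hy.2
    · exact hy.1 h4
  have h2 : x.1 ∈ (F.sup id).image Prod.fst := by
    rw [mem_vars]
    obtain ⟨C, hC, h3 | h3⟩ := hx
    · exact ⟨C, hC, x, h3, rfl⟩
    · exact ⟨C, hC, neg x, h3, rfl⟩
  have h3 := card_le_card h1
  rw [card_erase_of_mem h2] at h3
  omega

/-- Completeness. `n` is at least the number of occurring variables. Induction on `n`: by `HD_occ`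
some tested literal succeeds; for the literal `x` found first use `HD_restr` for `neg x`. -/
theorem refute_complete (n d : ℕ) (F : List (List Lit)) (hF : ∀ C ∈ toSet F, IsClause C)
    (hn : (((toSet F).sup id).image Prod.fst).card ≤ n) (h : HD d (toSet F)) :
    (refute n d F).1 = true := by
  induction n generalizing d F with
  | zero =>
    rw [refute]
    show (hasEmpty F).1 = true
    rw [hasEmpty_iff]
    by_contra he
    have hne : (toSet F).Nonempty := by
      rw [nonempty_iff_ne_empty]
      intro h0
      rw [h0] at h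
      exact h.unsat ⟨fun _ => true, by simp⟩
    obtain ⟨C, hC⟩ := hne
    have hC2 : C.Nonempty := by
      rw [nonempty_iff_ne_empty]
      rintro rfl
      exact he hC
    obtain ⟨y, hy⟩ := hC2
    have h1 : y.1 ∈ ((toSet F).sup id).image Prod.fst := (mem_vars _ _).2 ⟨C, hC, y, hy, rfl⟩
    have h2 := card_pos.2 ⟨_, h1⟩
    omega
  | succ n ih =>
    by_cases he : (hasEmpty F).1 = true
    · unfold refute
      simp [he]
    · have he' : ∅ ∉ toSet F := fun h1 => he ((hasEmpty_iff F).2 h1)
      cases d with
      | zero =>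
        cases h with
        | nil _ _ h => exact absurd h he'
      | succ e =>
        rw [refute_succ n e F he]
        obtain ⟨x, hx, hx2⟩ := HD_occ h he'
        have occ : ∀ z, z ∈ (both (lits F).1).1 ↔ ∃ C ∈ toSet F, z ∈ C ∨ neg z ∈ C := by
          intro z
          rw [mem_both, mem_lits, mem_lits]
          constructor
          · rintro (⟨C, hC, h1⟩ | ⟨C, hC, h1⟩)
            · exact ⟨C.toFinset, (mem_toSet F _).2 ⟨C, hC, rfl⟩,
                Or.inl (List.mem_toFinset.2 h1)⟩
            · exact ⟨C.toFinset, (mem_toSet F _).2 ⟨C, hC, rfl⟩,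
                Or.inr (List.mem_toFinset.2 h1)⟩
          · rintro ⟨D, hD, h1⟩
            obtain ⟨C, hC, rfl⟩ := (mem_toSet F _).1 hD
            rw [List.mem_toFinset, List.mem_toFinset] at h1
            rcases h1 with h1 | h1
            · exact Or.inl ⟨C, hC, h1⟩
            · exact Or.inr ⟨C, hC, h1⟩
        have cl : ∀ z : Lit, ∀ C ∈ toSet (assign z F).1, IsClause C := by
          intro z
          rw [toSet_assign]
          exact restr_isClause hF z
        cases hfst : (first (fun x => ((refute n e (assign x F).1).1,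
            (assign x F).2 + (refute n e (assign x F).1).2)) (both (lits F).1).1).1 with
        | none =>
          exfalso
          have h1 := first_none _ _ hfst x ((occ x).2 hx)
          have h2 : (refute n e (assign x F).1).1 = true := by
            apply ih e _ (cl x)
            · rw [toSet_assign]
              exact vars_restr x n hx hn
            · rw [toSet_assign]
              exact hx2
          simp only at h1
          rw [h2] at h1
          exact Bool.noConfusion h1
        | some y =>
          refine ⟨y, rfl, ?_⟩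
          obtain ⟨hy, _⟩ := first_some _ _ _ hfst
          rw [occ] at hy
          apply ih (e + 1) _ (cl _)
          · rw [toSet_assign]
            apply vars_restr (neg y) n _ hn
            obtain ⟨C, hC, h1⟩ := hy
            exact ⟨C, hC, by rw [neg_neg']; tauto⟩
          · rw [toSet_assign]
            exact HD_restr h _

end H13.HR
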