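import Pool.Agent.H13.HR.Defs

/-!
# The number of steps
-/

namespace H13.HR

open Finset

theorem size_cons (C : List Lit) (F : List (List Lit)) :
    size (C :: F) = size F + C.length + 1 := by
  simp [size]; omega

theorem size_nil : size ([] : List (List Lit)) = 1 := by
  simp [size]

theorem length_delC (x : Lit) (C : List Lit) : (delC x C).1.length ≤ C.length := by
  induction C with
  | nil => simp [delC]
  | cons y C ih =>
    simp only [delC]
    split_ifs
    · simp; omega
    · simp; omega

theorem steps_delC (x : Lit) (C : List Lit) : (delC x C).2 = C.length + 1 := by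
  induction C with
  | nil => simp [delC]
  | cons y C ih => simp only [delC]; simp; omega

theorem steps_memC (x : Lit) (C : List Lit) : (memC x C).2 ≤ C.length + 1 := by
  induction C with
  | nil => simp [memC]
  | cons y C ih =>
    simp only [memC]
    split_ifs
    · simp
    · simp; omega

theorem steps_app (C D : List Lit) : (app C D).2 = C.length + 1 := by
  induction C with
  | nil => simp [app]
  | cons y C ih => simp only [app]; simp; omega

theorem length_app (C D : List Lit) : (app C D).1.length = C.length + D.length := by
  induction C with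
  | nil => simp [app]
  | cons y C ih => simp only [app]; simp; omega

theorem size_assign_le (x : Lit) (F : List (List Lit)) : size (assign x F).1 ≤ size F := by
  induction F with
  | nil => simp [assign]
  | cons C F ih =>
    have h := length_delC (neg x) C
    simp only [assign]
    split_ifs
    · rw [size_cons]; omega
    · rw [size_cons, size_cons]; omega

theorem steps_assign (x : Lit) (F : List (List Lit)) : (assign x F).2 ≤ 4 * size F := by
  induction F with
  | nil => simp [assign, size_nil]
  | cons C F ih =>
    have h := steps_delC (neg x) C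
    have h2 := steps_memC x C
    simp only [assign]
    rw [size_cons]
    omega

theorem steps_hasEmpty (F : List (List Lit)) : (hasEmpty F).2 ≤ size F := by
  induction F with
  | nil => simp [hasEmpty, size_nil]
  | cons C F ih =>
    simp only [hasEmpty]
    rw [size_cons]
    split_ifs
    · simp
    · simp; omega

theorem length_lits (F : List (List Lit)) : (lits F).1.length + F.length + 1 = size F := by
  induction F with
  | nil => simp [lits, size_nil]
  | cons C F ih =>
    simp only [lits]
    rw [size_cons, length_app]
    simp; omega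

theorem steps_lits (F : List (List Lit)) : (lits F).2 ≤ 3 * size F := by
  induction F with
  | nil => simp [lits, size_nil]
  | cons C F ih =>
    simp only [lits]
    rw [size_cons, steps_app]
    omega

theorem length_both (C : List Lit) : (both C).1.length = 2 * C.length := by
  induction C with
  | nil => simp [both]
  | cons y C ih => simp only [both]; simp; omega

theorem steps_both (C : List Lit) : (both C).2 = C.length + 1 := by
  induction C with
  | nil => simp [both]
  | cons y C ih => simp only [both]; simp; omega

theorem steps_first (g : Lit → Bool × ℕ) (B : ℕ) (C : List Lit) (h : ∀ x ∈ C, (g x).2 ≤ B) :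
    (first g C).2 ≤ C.length * (B + 1) + 1 := by
  induction C with
  | nil => simp [first]
  | cons y C ih =>
    have h1 : (g y).2 ≤ B := h y (by simp)
    have h2 := ih (fun x hx => h x (by simp [hx]))
    simp only [first]
    split_ifs
    · simp only [List.length_cons]; nlinarith
    · simp only [List.length_cons]; nlinarith

/-- The number of steps of the search: with `s = size F`, at most
`(20 s + 20) ^ (d + 1) * (n + 1) ^ (d + 1)` (any bound of this kind is fine). -/
theorem steps_refute (s : ℕ) : ∀ (n d : ℕ) (F : List (List Lit)), size F ≤ s →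
    (refute n d F).2 ≤ (20 * s + 20) ^ (d + 1) * (n + 1) ^ (d + 1) := by
  have hlow : ∀ n d : ℕ, s + 1 ≤ (20 * s + 20) ^ (d + 1) * (n + 1) ^ (d + 1) := by
    intro n d
    have h1 : 1 ≤ (20 * s + 20) ^ d := Nat.one_le_pow _ _ (by omega)
    have h2 : 1 ≤ (n + 1) ^ (d + 1) := Nat.one_le_pow _ _ (by omega)
    calc s + 1 ≤ (1 * (20 * s + 20)) * 1 := by omega
      _ ≤ ((20 * s + 20) ^ d * (20 * s + 20)) * (n + 1) ^ (d + 1) := by gcongr
      _ = _ := by rw [← pow_succ]
  intro n
  induction n with
  | zero =>
    intro d F hF
    have h1 := steps_hasEmpty F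
    have h2 := hlow 0 d
    simp only [refute]
    omega
  | succ n ih =>
    intro d F hF
    have h1 := steps_hasEmpty F
    have h2 := hlow (n + 1) d
    cases d with
    | zero =>
      rw [refute]
      split_ifs with hE
      · simp only; omega
      · simp only; omega
    | succ e =>
      rw [refute]
      split_ifs with hE
      · simp only; omega
      · have hT : ∀ x : Lit, (refute n e (assign x F).1).2 ≤
            (20 * s + 20) ^ (e + 1) * (n + 1) ^ (e + 1) := fun x =>
          ih e _ ((size_assign_le x F).trans hF)
        have hT' : ∀ x : Lit, (refute n (e + 1) (assign x F).1).2 ≤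
            (20 * s + 20) ^ (e + 2) * (n + 1) ^ (e + 2) := fun x =>
          ih (e + 1) _ ((size_assign_le x F).trans hF)
        set T := (20 * s + 20) ^ (e + 1) * (n + 1) ^ (e + 1) with hTdef
        set T2 := (20 * s + 20) ^ (e + 2) * (n + 1) ^ (e + 2) with hT2def
        have hfirst : (first (fun x => ((refute n e (assign x F).1).1,
            (assign x F).2 + (refute n e (assign x F).1).2)) (both (lits F).1).1).2 ≤
            (2 * s) * (4 * s + T + 1) + 1 := by
          have h3 := steps_first (fun x => ((refute n e (assign x F).1).1,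
            (assign x F).2 + (refute n e (assign x F).1).2)) (4 * s + T) (both (lits F).1).1
            (by
              intro x _
              have h4 := hT x
              have h5 := steps_assign x F
              simp only
              omega)
          have h6 : (both (lits F).1).1.length ≤ 2 * s := by
            have h7 := length_lits F
            rw [length_both]; omega
          calc _ ≤ _ := h3
            _ ≤ _ := by gcongr
        have hlits := steps_lits F
        have hboth : (both (lits F).1).2 ≤ s + 1 := by
          have h7 := length_lits F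
          rw [steps_both]; omega
        have hkey : 8 * s ^ 2 + 11 * s + 3 + 2 * s * T + T2 ≤
            (20 * s + 20) ^ (e + 1 + 1) * (n + 1 + 1) ^ (e + 1 + 1) := by
          have hA : 20 * s + 20 ≤ T := by
            have h1 : 1 ≤ (20 * s + 20) ^ e := Nat.one_le_pow _ _ (by omega)
            have h2 : 1 ≤ (n + 1) ^ (e + 1) := Nat.one_le_pow _ _ (by omega)
            calc 20 * s + 20 = (1 * (20 * s + 20)) * 1 := by omega
              _ ≤ ((20 * s + 20) ^ e * (20 * s + 20)) * (n + 1) ^ (e + 1) := by gcongr
              _ = _ := by rw [← pow_succ]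
          have hpow : (n + 1) ^ (e + 2) + (n + 1) ^ (e + 1) ≤ (n + 1 + 1) ^ (e + 1 + 1) := by
            calc (n + 1) ^ (e + 2) + (n + 1) ^ (e + 1) = (n + 1 + 1) * (n + 1) ^ (e + 1) := by ring
              _ ≤ (n + 1 + 1) * (n + 1 + 1) ^ (e + 1) := by gcongr; omega
              _ = _ := by ring
          calc 8 * s ^ 2 + 11 * s + 3 + 2 * s * T + T2
              ≤ (18 * s + 20) * (20 * s + 20) + 2 * s * T + T2 := by nlinarith
            _ ≤ (18 * s + 20) * T + 2 * s * T + T2 := by gcongr
            _ = (20 * s + 20) * T + T2 := by ring
            _ = (20 * s + 20) ^ (e + 1 + 1) * ((n + 1) ^ (e + 2) + (n + 1) ^ (e + 1)) := by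
                rw [hTdef, hT2def]; ring
            _ ≤ _ := by gcongr
        have hassoc : (2 * s) * (4 * s + T + 1) = 8 * s ^ 2 + 2 * s + 2 * s * T := by ring
        split
        · rename_i c hc
          rw [hc] at hfirst
          simp only at hfirst ⊢
          omega
        · rename_i x c hc
          rw [hc] at hfirst
          have h8 := hT' (neg x)
          have h9 := steps_assign (neg x) F
          simp only at hfirst ⊢
          omega

/-- The number of elements computed by `len`. -/
theorem len_fst {α : Type} (C : List α) : (len C).1 = C.length := by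
  induction C with
  | nil => simp [len]
  | cons y C ih => simp only [len]; simp; omega

theorem len_snd {α : Type} (C : List α) : (len C).2 = C.length + 1 := by
  induction C with
  | nil => simp [len]
  | cons y C ih => simp only [len]; simp; omega

/-- Quasi-polynomial bound for the whole algorithm. -/
theorem steps_satAlg (k : ℕ) (F : List (List Lit)) :
    (satAlg k F).2 ≤ (size F + 2) ^ (100 * (k + 1) ^ 2 * (Nat.log 2 (size F) + 1) ^ 2) := by
  have hs1 : 1 ≤ size F := by unfold size; omega
  have h1 := steps_lits F
  have h2 := length_lits F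
  unfold satAlg
  simp only [len_fst, len_snd]
  set s := size F with hs
  set m := F.length with hm
  set n := (lits F).1.length with hn
  set d := (2 * k + 1) ^ 2 * (Nat.log 2 m + 1) ^ 2 with hd
  have hT := steps_refute s n d F le_rfl
  set X := (k + 1) ^ 2 * (Nat.log 2 s + 1) ^ 2 with hX
  have hX1 : 1 ≤ X := by
    rw [hX]
    exact Nat.one_le_iff_ne_zero.mpr (by positivity)
  have hdX : d ≤ 4 * X := by
    have h3 : Nat.log 2 m ≤ Nat.log 2 s := Nat.log_mono_right (by omega)
    calc d = (2 * k + 1) ^ 2 * (Nat.log 2 m + 1) ^ 2 := hd
      _ ≤ (2 * (k + 1)) ^ 2 * (Nat.log 2 s + 1) ^ 2 :=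
          Nat.mul_le_mul (Nat.pow_le_pow_left (by omega) 2) (Nat.pow_le_pow_left (by omega) 2)
      _ = 4 * X := by rw [hX]; ring
  have hA : 20 * s + 20 ≤ (s + 2) ^ 4 := by
    have : 3 ≤ s + 2 := by omega
    have h27 : 27 ≤ (s + 2) ^ 3 := by
      calc 27 = 3 ^ 3 := by norm_num
        _ ≤ (s + 2) ^ 3 := by gcongr
    calc 20 * s + 20 ≤ 27 * (s + 2) := by omega
      _ ≤ (s + 2) ^ 3 * (s + 2) := by gcongr
      _ = (s + 2) ^ 4 := by ring
  have hT2 : (20 * s + 20) ^ (d + 1) * (n + 1) ^ (d + 1) ≤ (s + 2) ^ (5 * (d + 1)) := by
    calc (20 * s + 20) ^ (d + 1) * (n + 1) ^ (d + 1)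
        ≤ ((s + 2) ^ 4) ^ (d + 1) * (s + 2) ^ (d + 1) :=
          Nat.mul_le_mul (Nat.pow_le_pow_left hA _) (Nat.pow_le_pow_left (by omega) _)
      _ = (s + 2) ^ (5 * (d + 1)) := by
          rw [← pow_mul, ← pow_add]; congr 1; ring
  have hsmall : 6 * s + 1 ≤ (s + 2) ^ (5 * (d + 1)) := by
    calc 6 * s + 1 ≤ (s + 2) ^ 2 := by nlinarith [sq_nonneg ((s : ℤ) - 1), mul_self_nonneg ((s:ℤ) - 1)]
      _ ≤ (s + 2) ^ (5 * (d + 1)) := Nat.pow_le_pow_right (by omega) (by omega)
  have hfin : 2 * (s + 2) ^ (5 * (d + 1)) ≤ (s + 2) ^ (100 * X) := by
    calc 2 * (s + 2) ^ (5 * (d + 1)) ≤ (s + 2) * (s + 2) ^ (5 * (d + 1)) :=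
          Nat.mul_le_mul_right _ (by omega)
      _ = (s + 2) ^ (5 * (d + 1) + 1) := by ring
      _ ≤ (s + 2) ^ (100 * X) := Nat.pow_le_pow_right (by omega) (by omega)
  have hexp : 100 * (k + 1) ^ 2 * (Nat.log 2 s + 1) ^ 2 = 100 * X := by rw [hX]; ring
  rw [hexp]
  omega

end H13.HR
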