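import Mathlib

/-!
# Clause-sets, conflict matrix, hermitian rank, and a SAT algorithm with a step count
-/

namespace H13.HR

open Finset

/-- A literal: a variable together with a sign. -/
abbrev Lit := ℕ × Bool

/-- The complement of a literal. -/
def neg (x : Lit) : Lit := (x.1, !x.2)

/-- A clause: a finite set of literals without complementary pair. -/
def IsClause (C : Finset Lit) : Prop := ∀ x ∈ C, neg x ∉ C

/-- Satisfiability of a finite set of clauses. -/
def Sat (F : Finset (Finset Lit)) : Prop :=
  ∃ τ : ℕ → Bool, ∀ C ∈ F, ∃ x ∈ C, τ x.1 = x.2

/-- The number of clashing literals of two clauses. -/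
def clash (C D : Finset Lit) : ℕ := (C.filter (fun x => neg x ∈ D)).card

/-- The conflict matrix. -/
def CM (F : Finset (Finset Lit)) : Matrix F F ℝ :=
  Matrix.of fun C D => (clash C.1 D.1 : ℝ)

/-- The hermitian rank of a real (symmetric) matrix. -/
noncomputable def hermRank {m : Type} [Fintype m] (A : Matrix m m ℝ) : ℕ :=
  sInf {r : ℕ | ∃ B : Matrix m m ℝ, A = B + B.transpose ∧ B.rank = r}

/-! ### The algorithm.  Every function returns its value and the number of steps. -/

/-- Membership of a literal in a clause. -/
def memC (x : Lit) : List Lit → Bool × ℕ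
  | [] => (false, 1)
  | y :: C => if y = x then (true, 1) else ((memC x C).1, (memC x C).2 + 1)

/-- Removing a literal from a clause. -/
def delC (x : Lit) : List Lit → List Lit × ℕ
  | [] => ([], 1)
  | y :: C => (if y = x then (delC x C).1 else y :: (delC x C).1, (delC x C).2 + 1)

/-- Setting the literal `x` to true. -/
def assign (x : Lit) : List (List Lit) → List (List Lit) × ℕ
  | [] => ([], 1)
  | C :: F => (if (memC x C).1 then (assign x F).1 else (delC (neg x) C).1 :: (assign x F).1,
      (memC x C).2 + (delC (neg x) C).2 + (assign x F).2 + 1)

/-- Is there an empty clause? -/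
def hasEmpty : List (List Lit) → Bool × ℕ
  | [] => (false, 1)
  | C :: F => if C.isEmpty then (true, 1) else ((hasEmpty F).1, (hasEmpty F).2 + 1)

/-- Concatenation. -/
def app : List Lit → List Lit → List Lit × ℕ
  | [], D => (D, 1)
  | x :: C, D => (x :: (app C D).1, (app C D).2 + 1)

/-- The list of all literal occurrences. -/
def lits : List (List Lit) → List Lit × ℕ
  | [] => ([], 1)
  | C :: F => ((app C (lits F).1).1, (app C (lits F).1).2 + (lits F).2 + 1)

/-- Both signs of every literal of a list. -/
def both : List Lit → List Lit × ℕ
  | [] => ([], 1)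
  | x :: C => (x :: neg x :: (both C).1, (both C).2 + 1)

/-- The first literal of a list which passes the test `g`. -/
def first (g : Lit → Bool × ℕ) : List Lit → Option Lit × ℕ
  | [] => (none, 1)
  | x :: C => if (g x).1 then (some x, (g x).2 + 1) else ((first g C).1, (g x).2 + (first g C).2 + 1)

/-- Search for a refutation: `n` bounds the depth of the recursion, `d` the nesting of tests. -/
def refute : ℕ → ℕ → List (List Lit) → Bool × ℕ
  | 0, _, F => ((hasEmpty F).1, (hasEmpty F).2 + 1)
  | n + 1, d, F =>
    if (hasEmpty F).1 then (true, (hasEmpty F).2 + 1) else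
      match d with
      | 0 => (false, (hasEmpty F).2 + 1)
      | e + 1 =>
        match first (fun x => ((refute n e (assign x F).1).1,
            (assign x F).2 + (refute n e (assign x F).1).2)) (both (lits F).1).1 with
        | (none, c) => (false, (hasEmpty F).2 + (lits F).2 + (both (lits F).1).2 + c + 1)
        | (some x, c) => ((refute n (e + 1) (assign (neg x) F).1).1,
            (hasEmpty F).2 + (lits F).2 + (both (lits F).1).2 + c + (assign (neg x) F).2 +
              (refute n (e + 1) (assign (neg x) F).1).2 + 1)

/-- The number of elements of a list, counted step by step. -/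
def len {α : Type} : List α → ℕ × ℕ
  | [] => (0, 1)
  | _ :: C => ((len C).1 + 1, (len C).2 + 1)

/-- The decision algorithm: `true` means satisfiable. The exponent `(2k+1)^2 (log₂ m + 1)^2` is
computed from the number `m` of clauses, charged with `m + 1` steps. -/
def satAlg (k : ℕ) (F : List (List Lit)) : Bool × ℕ :=
  (!(refute (len (lits F).1).1 ((2 * k + 1) ^ 2 * (Nat.log 2 (len F).1 + 1) ^ 2) F).1,
    (lits F).2 + (len (lits F).1).2 + (len F).2 + ((len F).1 + 1) +
    (refute (len (lits F).1).1 ((2 * k + 1) ^ 2 * (Nat.log 2 (len F).1 + 1) ^ 2) F).2 + 1)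

/-- The clause-set given by a list of lists of literals. -/
def toSet (F : List (List Lit)) : Finset (Finset Lit) := (F.map List.toFinset).toFinset

/-- The size of the input: clauses plus literal occurrences, plus one. -/
def size (F : List (List Lit)) : ℕ := F.length + (F.map List.length).sum + 1

end H13.HR
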