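import Pool.Agent.H13.HR.Defs

/-!
# Restriction of clause-sets and the hardness predicate

`restr x F`: `x` set to true.  `HD d F`: there is a search tree refuting `F` of Horton-Strahler
number at most `d`.
-/

namespace H13.HR

open Finset

/-- `x` set to true. -/
def restr (x : Lit) (F : Finset (Finset Lit)) : Finset (Finset Lit) :=
  (F.filter (fun C => x ∉ C)).image (fun C => C.erase (neg x))

/-- Hardness at most `d`. -/
inductive HD : ℕ → Finset (Finset Lit) → Prop
  | nil (d : ℕ) (F : Finset (Finset Lit)) (h : ∅ ∈ F) : HD d F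
  | node (d : ℕ) (F : Finset (Finset Lit)) (x : Lit) (h0 : HD d (restr x F))
      (h1 : HD (d + 1) (restr (neg x) F)) : HD (d + 1) F

private theorem mem_restr {x : Lit} {F : Finset (Finset Lit)} {C : Finset Lit} :
    C ∈ restr x F ↔ ∃ D ∈ F, x ∉ D ∧ D.erase (neg x) = C := by
  simp only [restr, Finset.mem_image, Finset.mem_filter]
  constructor
  · rintro ⟨D, ⟨h1, h2⟩, h3⟩
    exact ⟨D, h1, h2, h3⟩
  · rintro ⟨D, h1, h2, h3⟩
    exact ⟨D, ⟨h1, h2⟩, h3⟩

private theorem eq_or_neg {x y : Lit} (h : x.1 = y.1) : x = y ∨ x = neg y := by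
  obtain ⟨a, b⟩ := x
  obtain ⟨c, d⟩ := y
  simp only at h
  subst h
  cases b <;> cases d <;> simp [neg]

private theorem neg_neg' (x : Lit) : neg (neg x) = x := by
  simp [neg]

private theorem neg_ne (x : Lit) : neg x ≠ x := by
  obtain ⟨a, b⟩ := x
  cases b <;> simp [neg]

theorem HD.mono {d e : ℕ} {F : Finset (Finset Lit)} (h : HD d F) (hde : d ≤ e) : HD e F := by
  induction h generalizing e with
  | nil d F h => exact HD.nil e F h
  | node d F x h0 h1 ih0 ih1 =>
    obtain ⟨e', rfl⟩ : ∃ e', e = e' + 1 := ⟨e - 1, by omega⟩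
    exact HD.node e' F x (ih0 (by omega)) (ih1 hde)

theorem restr_isClause {F : Finset (Finset Lit)} (hF : ∀ C ∈ F, IsClause C) (x : Lit) :
    ∀ C ∈ restr x F, IsClause C := by
  intro C hC
  obtain ⟨D, hD, _, rfl⟩ := mem_restr.1 hC
  intro z hz hz'
  exact hF D hD z (Finset.mem_of_mem_erase hz) (Finset.mem_of_mem_erase hz')

/-- Restrictions of different variables commute. -/
theorem restr_comm {x y : Lit} (h : x.1 ≠ y.1) (F : Finset (Finset Lit)) :
    restr x (restr y F) = restr y (restr x F) := by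
  have key : ∀ {x y : Lit}, x.1 ≠ y.1 → restr x (restr y F) ⊆ restr y (restr x F) := by
    intro x y h C hC
    obtain ⟨D, hD, hxD, rfl⟩ := mem_restr.1 hC
    obtain ⟨E, hE, hyE, rfl⟩ := mem_restr.1 hD
    have hxy : x ≠ neg y := fun h' => h (by rw [h']; rfl)
    have hyx : y ≠ neg x := fun h' => h (by rw [h']; rfl)
    refine mem_restr.2 ⟨E.erase (neg x), mem_restr.2 ⟨E, hE, ?_, rfl⟩, ?_, ?_⟩
    · intro hx
      exact hxD (Finset.mem_erase.2 ⟨hxy, hx⟩)
    · intro hy
      exact hyE (Finset.mem_of_mem_erase hy)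
    · rw [Finset.erase_right_comm]
  exact Finset.Subset.antisymm (key h) (key (Ne.symm h))

/-- After `y` is set (either way), setting the variable of `y` again changes nothing. -/
theorem restr_same {x y : Lit} (h : x.1 = y.1) {F : Finset (Finset Lit)} :
    restr x (restr y F) = restr y F := by
  have hno : ∀ C ∈ restr y F, x ∉ C ∧ neg x ∉ C := by
    intro C hC
    obtain ⟨D, hD, hyD, rfl⟩ := mem_restr.1 hC
    have h1 : y ∉ D.erase (neg y) := fun h' => hyD (Finset.mem_of_mem_erase h')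
    have h2 : neg y ∉ D.erase (neg y) := Finset.notMem_erase _ _
    rcases eq_or_neg h with rfl | rfl
    · exact ⟨h1, h2⟩
    · rw [neg_neg']
      exact ⟨h2, h1⟩
  ext C
  constructor
  · intro hC
    obtain ⟨D, hD, hxD, rfl⟩ := mem_restr.1 hC
    rwa [Finset.erase_eq_of_notMem (hno D hD).2]
  · intro hC
    exact mem_restr.2 ⟨C, hC, (hno C hC).1, Finset.erase_eq_of_notMem (hno C hC).2⟩

/-- Hardness does not grow under restriction (induction on `HD`, using the two lemmas above). -/
theorem HD_restr {d : ℕ} {F : Finset (Finset Lit)} (h : HD d F) (y : Lit) :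
    HD d (restr y F) := by
  induction h with
  | nil d F h =>
    exact HD.nil d _ (mem_restr.2 ⟨∅, h, by simp, by simp⟩)
  | node d F x h0 h1 ih0 ih1 =>
    by_cases hxy : y.1 = x.1
    · rcases eq_or_neg hxy with rfl | rfl
      · exact h0.mono (by omega)
      · exact h1
    · have hxy' : y.1 ≠ (neg x).1 := hxy
      refine HD.node d _ x ?_ ?_
      · rw [← restr_comm hxy]
        exact ih0
      · rw [← restr_comm hxy']
        exact ih1

/-- A clause-set with a refutation is unsatisfiable. -/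
theorem HD.unsat {d : ℕ} {F : Finset (Finset Lit)} (h : HD d F) : ¬ Sat F := by
  have key : ∀ (F : Finset (Finset Lit)) (x : Lit) (τ : ℕ → Bool),
      (∀ C ∈ F, ∃ x ∈ C, τ x.1 = x.2) → τ x.1 = x.2 → Sat (restr x F) := by
    intro F x τ hτ hx
    refine ⟨τ, fun C hC => ?_⟩
    obtain ⟨D, hD, hxD, rfl⟩ := mem_restr.1 hC
    obtain ⟨z, hz, hz'⟩ := hτ D hD
    refine ⟨z, Finset.mem_erase.2 ⟨?_, hz⟩, hz'⟩
    rintro rfl
    simp only [neg] at hz'
    rw [hx] at hz'
    cases h : x.2 <;> simp [h] at hz'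
  induction h with
  | nil d F h =>
    rintro ⟨τ, hτ⟩
    obtain ⟨x, hx, _⟩ := hτ ∅ h
    simp at hx
  | node d F x h0 h1 ih0 ih1 =>
    rintro ⟨τ, hτ⟩
    by_cases hx : τ x.1 = x.2
    · exact ih0 (key F x τ hτ hx)
    · refine ih1 (key F (neg x) τ hτ ?_)
      simp only [neg]
      cases h1 : τ x.1 <;> cases h2 : x.2 <;> simp_all

/-- If `F` is satisfiable, so is one of the two restrictions. -/
theorem sat_restr {F : Finset (Finset Lit)} (h : ¬ Sat F) (x : Lit) : ¬ Sat (restr x F) := by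
  rintro ⟨τ, hτ⟩
  refine h ⟨Function.update τ x.1 x.2, fun C hC => ?_⟩
  by_cases hx : x ∈ C
  · exact ⟨x, hx, by simp⟩
  · obtain ⟨z, hz, hz'⟩ := hτ _ (mem_restr.2 ⟨C, hC, hx, rfl⟩)
    obtain ⟨hz1, hz2⟩ := Finset.mem_erase.1 hz
    refine ⟨z, hz2, ?_⟩
    have hne : z.1 ≠ x.1 := by
      intro h'
      rcases eq_or_neg h' with rfl | rfl
      · exact hx hz2
      · exact hz1 rfl
    rw [Function.update_of_ne hne]
    exact hz'

end H13.HR
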