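import Pool.Agent.H13.HR.LinA

/-!
# Rank and hermitian rank
-/

namespace H13.HR

open Finset

/-- The rank is subadditive. -/
theorem rank_add_le_aux {m : Type} [Fintype m] (A B : Matrix m m ℝ) :
    (A + B).rank ≤ A.rank + B.rank := by
  unfold Matrix.rank
  calc Module.finrank ℝ (LinearMap.range (A + B).mulVecLin)
      ≤ Module.finrank ℝ
          (LinearMap.range A.mulVecLin ⊔ LinearMap.range B.mulVecLin : Submodule ℝ (m → ℝ)) := by
        apply Submodule.finrank_mono
        rintro _ ⟨x, rfl⟩
        rw [Matrix.mulVecLin_add]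
        exact Submodule.add_mem_sup ⟨x, rfl⟩ ⟨x, rfl⟩
    _ ≤ _ := Submodule.finrank_add_le_finrank_add_finrank _ _

/-- A symmetric matrix has rank at most twice its hermitian rank. -/
theorem rank_le_two_hermRank {m : Type} [Fintype m] [DecidableEq m] (A : Matrix m m ℝ)
    (hA : A.transpose = A) : A.rank ≤ 2 * hermRank A := by
  have hne : {r : ℕ | ∃ B : Matrix m m ℝ, A = B + B.transpose ∧ B.rank = r}.Nonempty := by
    refine ⟨_, (1 / 2 : ℝ) • A, ?_, rfl⟩
    rw [Matrix.transpose_smul, hA, ← add_smul]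
    norm_num
  obtain ⟨B, hB, hr⟩ := Nat.sInf_mem hne
  have h1 : A.rank ≤ B.rank + B.transpose.rank := by
    conv_lhs => rw [hB]
    exact rank_add_le_aux _ _
  rw [Matrix.rank_transpose] at h1
  have h2 : B.rank = hermRank A := hr
  omega

theorem rk_le_two_hermRank (F : Finset (Finset Lit)) : rk F ≤ 2 * hermRank (CM F) := by
  apply rank_le_two_hermRank
  ext C D
  simp only [CM, Matrix.transpose_apply, Matrix.of_apply]
  rw [clash_comm]

end H13.HR
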