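import Pool.Agent.H13.HR.Defs

/-!
# Row bases of the conflict matrix

`rk S` is the rank of the conflict matrix of `S`; a row basis is a set `X ⊆ S` of `rk S` clauses with
linearly independent rows (so these rows span the row space); `nb S` is the number of row bases.
Useful: `Matrix.rank_submatrix_le`, `Matrix.rank_eq_finrank_span_row`,
`LinearIndependent.rank_matrix`.
-/

namespace H13.HR

open Finset

theorem neg_neg (x : Lit) : neg (neg x) = x := by
  simp [neg]

/-- The clash number is symmetric. -/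
theorem clash_comm (C D : Finset Lit) : clash C D = clash D C := by
  unfold clash
  apply Finset.card_bij' (fun x _ => neg x) (fun x _ => neg x)
  · intro x hx
    simp only [Finset.mem_filter] at hx ⊢
    exact ⟨hx.2, by rw [neg_neg]; exact hx.1⟩
  · intro x hx
    simp only [Finset.mem_filter] at hx ⊢
    exact ⟨hx.2, by rw [neg_neg]; exact hx.1⟩
  · intro x _
    exact neg_neg x
  · intro x _
    exact neg_neg x

/-- The rank of the conflict matrix. -/
noncomputable def rk (S : Finset (Finset Lit)) : ℕ := (CM S).rank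

/-- The row of the clause `C` with columns in `S`. -/
def row (S : Finset (Finset Lit)) (C : Finset Lit) : S → ℝ := fun D => (clash C D.1 : ℝ)

/-- `X` is a row basis of `S`. -/
def IsRB (S X : Finset (Finset Lit)) : Prop :=
  X ⊆ S ∧ X.card = rk S ∧ LinearIndependent ℝ (fun C : X => row S C.1)

open Classical in
/-- The number of row bases. -/
noncomputable def nb (S : Finset (Finset Lit)) : ℕ := (S.powerset.filter (IsRB S)).card

/-- Linearly independent rows: at most `rk S`. -/
theorem card_le_rk (S X : Finset (Finset Lit)) (hX : X ⊆ S)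
    (h : LinearIndependent ℝ (fun C : X => row S C.1)) : X.card ≤ rk S := by
  have h1 : LinearIndependent ℝ
      ((CM S).submatrix (fun C : X => (⟨C.1, hX C.2⟩ : S)) (id : S → S)).row := h
  have h2 := h1.rank_matrix
  have h3 := Matrix.rank_submatrix_le (CM S) (fun C : X => (⟨C.1, hX C.2⟩ : S)) (id : S → S)
  rw [h2] at h3
  simpa [rk] using h3

/-- The rank is the dimension of the span of the rows. -/
theorem rk_eq (S : Finset (Finset Lit)) :
    rk S = Module.finrank ℝ (Submodule.span ℝ (Set.range (fun C : S => row S C.1))) := by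
  unfold rk
  rw [Matrix.rank_eq_finrank_span_row]
  rfl

theorem rk_mono {S' S : Finset (Finset Lit)} (h : S' ⊆ S) : rk S' ≤ rk S := by
  have h3 := Matrix.rank_submatrix_le (CM S) (fun C : S' => (⟨C.1, h C.2⟩ : S))
    (fun C : S' => (⟨C.1, h C.2⟩ : S))
  exact h3

/-- There is a row basis. -/
theorem exists_rb (S : Finset (Finset Lit)) : ∃ X, IsRB S X := by
  classical
  obtain ⟨b, hbS, -, hspan, hli⟩ := exists_linearIndepOn_extension
    (K := ℝ) (v := row S) (s := ∅) (t := (S : Set (Finset Lit)))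
    (linearIndepOn_empty ℝ (row S)) (Set.empty_subset _)
  have hbf : b.Finite := S.finite_toSet.subset hbS
  obtain ⟨X, rfl⟩ := hbf.exists_finset_coe
  have hli' : LinearIndependent ℝ (fun C : X => row S C.1) := hli
  refine ⟨X, by exact_mod_cast hbS, ?_, hli'⟩
  apply le_antisymm (card_le_rk S X (by exact_mod_cast hbS) hli')
  rw [rk_eq]
  have h1 : Set.range (fun C : S => row S C.1) ⊆ Submodule.span ℝ (row S '' (X : Set (Finset Lit))) := by
    rintro _ ⟨C, rfl⟩
    exact hspan ⟨C.1, C.2, rfl⟩
  have h2 : Submodule.span ℝ (Set.range (fun C : S => row S C.1)) ≤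
      Submodule.span ℝ (row S '' (X : Set (Finset Lit))) := Submodule.span_le.mpr h1
  have h3 := Submodule.finrank_mono h2
  refine h3.trans ?_
  have h4 : row S '' (X : Set (Finset Lit)) = Set.range (fun C : X => row S C.1) := by
    ext y
    simp
  rw [h4, finrank_span_eq_card hli']
  simp

theorem nb_pos (S : Finset (Finset Lit)) : 0 < nb S := by
  classical
  obtain ⟨X, hX⟩ := exists_rb S
  unfold nb
  apply Finset.card_pos.mpr
  exact ⟨X, by simpa using ⟨hX.1, hX⟩⟩

theorem nb_le (S : Finset (Finset Lit)) : nb S ≤ S.card ^ rk S := by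
  classical
  refine le_trans ?_ (Nat.choose_le_pow S.card (rk S))
  rw [← Finset.card_powersetCard]
  unfold nb
  apply Finset.card_le_card
  intro X hX
  rw [Finset.mem_filter] at hX
  exact Finset.mem_powersetCard.mpr ⟨hX.2.1, hX.2.2.1⟩

/-- A row basis of a subset of the same rank is a row basis of the whole. -/
theorem rb_mono {S' S X : Finset (Finset Lit)} (h : S' ⊆ S) (hr : rk S' = rk S)
    (hX : IsRB S' X) : IsRB S X := by
  refine ⟨hX.1.trans h, hX.2.1.trans hr, ?_⟩
  apply LinearIndependent.of_comp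
    (LinearMap.funLeft ℝ ℝ (fun C : S' => (⟨C.1, h C.2⟩ : S)))
  exact hX.2.2

/-- Rank zero: no clashes. -/
theorem clash_zero {S : Finset (Finset Lit)} (h : rk S = 0) {C D : Finset Lit} (hC : C ∈ S)
    (hD : D ∈ S) : clash C D = 0 := by
  rw [rk_eq] at h
  have h1 := Submodule.finrank_eq_zero.mp h
  have h2 : row S C ∈ Submodule.span ℝ (Set.range (fun C : S => row S C.1)) :=
    Submodule.subset_span ⟨⟨C, hC⟩, rfl⟩
  rw [h1, Submodule.mem_bot] at h2
  have h3 := congrFun h2 ⟨D, hD⟩
  simpa [row] using h3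

/-- A clause that clashes with some clause of `S` clashes with an element of every row basis:
otherwise its column vanishes on the rows of the basis, hence on the whole row space. -/
theorem rb_hit {S X : Finset (Finset Lit)} (hX : IsRB S X) {C : Finset Lit} (hC : C ∈ S)
    (h : ∃ D ∈ S, 0 < clash C D) : ∃ D ∈ X, 0 < clash C D := by
  by_contra hcon
  push_neg at hcon
  obtain ⟨D, hD, hpos⟩ := h
  have hle : Submodule.span ℝ (Set.range (fun C : X => row S C.1)) ≤
      Submodule.span ℝ (Set.range (fun C : S => row S C.1)) := by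
    apply Submodule.span_mono
    rintro _ ⟨E, rfl⟩
    exact ⟨⟨E.1, hX.1 E.2⟩, rfl⟩
  have heq := Submodule.eq_of_le_of_finrank_eq hle (by
    rw [finrank_span_eq_card hX.2.2, ← rk_eq, ← hX.2.1]
    simp)
  have hmem : row S D ∈ Submodule.span ℝ (Set.range (fun C : X => row S C.1)) := by
    rw [heq]
    exact Submodule.subset_span ⟨⟨D, hD⟩, rfl⟩
  have hker : Submodule.span ℝ (Set.range (fun C : X => row S C.1)) ≤
      LinearMap.ker (LinearMap.proj (R := ℝ) (φ := fun _ : S => ℝ) (⟨C, hC⟩ : S)) := by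
    apply Submodule.span_le.mpr
    rintro _ ⟨E, rfl⟩
    have h0 : clash C E.1 = 0 := Nat.le_zero.mp (hcon E.1 E.2)
    simp [row, clash_comm E.1 C, h0]
  have h5 := hker hmem
  simp only [LinearMap.mem_ker, LinearMap.proj_apply, row, Nat.cast_eq_zero] at h5
  rw [clash_comm] at h5
  omega

/-- The averaging step. -/
theorem split_step (S : Finset (Finset Lit)) (C : Finset Lit) (hC : C ∈ S)
    (h : ∃ D ∈ S, 0 < clash C D) (Y : Finset Lit) (L : ℕ) (hL : Y.card ≤ L)
    (hY : ∀ D ∈ S, 0 < clash C D → ∃ x ∈ Y, neg x ∈ D) :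
    ∃ x ∈ Y, rk (S.filter (fun D => neg x ∉ D)) = rk S →
      nb (S.filter (fun D => neg x ∉ D)) * L ≤ (L - 1) * nb S := by
  classical
  set B := S.powerset.filter (IsRB S) with hB
  have hBn : B.card = nb S := by
    rw [hB]
    unfold nb
    congr!
  set H : Lit → Finset (Finset (Finset Lit)) := fun x => B.filter (fun X => ∃ D ∈ X, neg x ∈ D) with hH
  have hcover : B ⊆ Y.biUnion H := by
    intro X hX
    have hX1 : IsRB S X := (Finset.mem_filter.mp hX).2
    obtain ⟨D, hD, hpos⟩ := rb_hit hX1 hC h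
    obtain ⟨x, hx, hxD⟩ := hY D (hX1.1 hD) hpos
    exact Finset.mem_biUnion.mpr ⟨x, hx, Finset.mem_filter.mpr ⟨hX, D, hD, hxD⟩⟩
  have hsum : B.card ≤ ∑ x ∈ Y, (H x).card :=
    (Finset.card_le_card hcover).trans Finset.card_biUnion_le
  have hYne : Y.Nonempty := by
    obtain ⟨D, hD, hpos⟩ := h
    obtain ⟨x, hx, -⟩ := hY D hD hpos
    exact ⟨x, hx⟩
  obtain ⟨x, hxY, hx⟩ : ∃ x ∈ Y, B.card ≤ Y.card * (H x).card := by
    by_contra hcon
    push_neg at hcon
    have h1 : ∑ x ∈ Y, Y.card * (H x).card < ∑ _x ∈ Y, B.card :=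
      Finset.sum_lt_sum_of_nonempty hYne hcon
    rw [← Finset.mul_sum, Finset.sum_const, smul_eq_mul] at h1
    exact absurd (Nat.lt_of_mul_lt_mul_left h1) (not_lt.mpr hsum)
  refine ⟨x, hxY, fun hr => ?_⟩
  set S' := S.filter (fun D => neg x ∉ D) with hS'
  have hle : nb S' ≤ (B \ H x).card := by
    unfold nb
    apply Finset.card_le_card
    intro X hX
    rw [Finset.mem_filter] at hX
    have hX1 := rb_mono (Finset.filter_subset _ _) hr hX.2
    rw [Finset.mem_sdiff]
    refine ⟨Finset.mem_filter.mpr ⟨Finset.mem_powerset.mpr hX1.1, hX1⟩, fun hXH => ?_⟩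
    obtain ⟨D, hD, hxD⟩ := (Finset.mem_filter.mp hXH).2
    exact (Finset.mem_filter.mp (hX.2.1 hD)).2 hxD
  have hcard : (B \ H x).card + (H x).card = B.card := by
    rw [Finset.card_sdiff_add_card_eq_card (Finset.filter_subset _ _)]
  have hL1 : 1 ≤ L := hYne.card_pos.trans_le hL
  have hx2 : B.card ≤ L * (H x).card := hx.trans (Nat.mul_le_mul_right _ hL)
  obtain ⟨l, rfl⟩ := Nat.exists_eq_add_of_le hL1
  rw [← hBn]
  have e1 : 1 + l - 1 = l := by omega
  rw [e1]
  nlinarith

end H13.HR
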