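import Pool.Agent.H13.HR.Tree
import Pool.Agent.H13.HR.Herm
import Pool.Agent.H13.HR.Corr
import Pool.Agent.H13.HR.Cost

/-!
# Quasi-polynomial satisfiability for bounded hermitian rank
-/

namespace H13.HR

open Finset

theorem main (k : ℕ) (F : List (List Lit)) (hF : ∀ C ∈ toSet F, IsClause C)
    (hk : hermRank (CM (toSet F)) ≤ k) :
    ((satAlg k F).1 = true ↔ Sat (toSet F)) ∧
      (satAlg k F).2 ≤ (size F + 2) ^ (100 * (k + 1) ^ 2 * (Nat.log 2 (size F) + 1) ^ 2) := by
  refine ⟨?_, steps_satAlg k F⟩
  have hcard : (toSet F).card ≤ F.length := by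
    unfold toSet
    exact le_trans (List.toFinset_card_le _) (by simp)
  by_cases hs : Sat (toSet F)
  · simp only [hs, iff_true]
    have : (refute (len (lits F).1).1 ((2 * k + 1) ^ 2 * (Nat.log 2 (len F).1 + 1) ^ 2) F).1
        = false := by
      by_contra h
      exact refute_sound _ _ _ (by simpa using h) hs
    simp [satAlg, this]
  · simp only [hs, iff_false]
    have h1 : HD ((2 * k + 1) ^ 2 * (Nat.log 2 (toSet F).card + 1) ^ 2) (toSet F) :=
      hard_main _ hF hs (2 * k) (le_trans (rk_le_two_hermRank _) (by omega))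
    have h2 : HD ((2 * k + 1) ^ 2 * (Nat.log 2 (len F).1 + 1) ^ 2) (toSet F) := by
      apply h1.mono
      rw [len_eq]
      gcongr
    have hn : (((toSet F).sup id).image Prod.fst).card ≤ (len (lits F).1).1 := by
      rw [len_eq]
      refine le_trans Finset.card_image_le ?_
      refine le_trans ?_ (List.toFinset_card_le (lits F).1)
      apply Finset.card_le_card
      intro x hx
      rw [Finset.mem_sup] at hx
      obtain ⟨C, hC, hx⟩ := hx
      unfold toSet at hC
      rw [List.mem_toFinset, List.mem_map] at hC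
      obtain ⟨C', hC', rfl⟩ := hC
      rw [List.mem_toFinset]
      exact (mem_lits F x).2 ⟨C', hC', by simpa using hx⟩
    have := refute_complete _ _ F hF hn h2
    simp [satAlg, this]

end H13.HR
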