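import Pool.Agent.H13.HR.Main

/-!
# Satisfiability of clause-sets of bounded hermitian rank is quasi-polynomial

For every fixed `k` one deterministic algorithm decides satisfiability of all clause-sets whose
conflict matrix has hermitian rank at most `k`, within
`(s + 2) ^ (100 (k+1)^2 (log₂ s + 1)^2)` elementary steps on inputs of size `s`.
-/

open H13.HR in
theorem H13.HR.quasiPolynomial (k : ℕ) (F : List (List Lit))
    (hF : ∀ C ∈ toSet F, IsClause C) (hk : hermRank (CM (toSet F)) ≤ k) :
    ((satAlg k F).1 = true ↔ Sat (toSet F)) ∧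
      (satAlg k F).2 ≤
        (size F + 2) ^ (100 * (k + 1) ^ 2 * (Nat.log 2 (size F) + 1) ^ 2) :=
  main k F hF hk
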