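import Pool.Agent.H13.HR.Defs

/-!
# A clause-set of weight less than one is satisfiable

Induction on the number of variables: setting `v` true or false, the two weights sum to at most
twice the old one; `T` restricted is an image, so weights can only drop by merging.
-/

namespace H13.HR

open Finset

/-- The indexed version (no merging of clauses). -/
theorem sat_of_weight_aux {ι : Type} (V : Finset ℕ) : ∀ (I : Finset ι) (c : ι → Finset Lit),
    (∀ i ∈ I, IsClause (c i)) → (∀ i ∈ I, ∀ x ∈ c i, x.1 ∈ V) →
    ∑ i ∈ I, (1 / 2 : ℝ) ^ (c i).card < 1 →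
    ∃ τ : ℕ → Bool, ∀ i ∈ I, ∃ x ∈ c i, τ x.1 = x.2 := by
  induction V using Finset.induction_on with
  | empty =>
    intro I c _ h2 h3
    refine ⟨fun _ => true, fun i hi => ?_⟩
    exfalso
    have hc : c i = ∅ := by
      by_contra hne
      obtain ⟨x, hx⟩ := Finset.nonempty_iff_ne_empty.mpr hne
      exact absurd (h2 i hi x hx) (by simp)
    have h4 : (1 / 2 : ℝ) ^ (c i).card ≤ ∑ i ∈ I, (1 / 2 : ℝ) ^ (c i).card :=
      Finset.single_le_sum (f := fun i => (1 / 2 : ℝ) ^ (c i).card)
        (fun _ _ => by positivity) hi
    rw [hc, Finset.card_empty, pow_zero] at h4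
    linarith
  | insert v V hv ih =>
    intro I c h1 h2 h3
    have key : ∀ b : Bool,
        ∑ i ∈ I.filter (fun i => (v, b) ∉ c i), (1 / 2 : ℝ) ^ ((c i).erase (v, !b)).card < 1 →
        ∃ τ : ℕ → Bool, ∀ i ∈ I, ∃ x ∈ c i, τ x.1 = x.2 := by
      intro b hb
      obtain ⟨τ, hτ⟩ := ih (I.filter (fun i => (v, b) ∉ c i)) (fun i => (c i).erase (v, !b))
        (fun i hi x hx hx' => h1 i (Finset.mem_filter.mp hi).1 x (Finset.mem_of_mem_erase hx)
          (Finset.mem_of_mem_erase hx'))
        (by
          intro i hi x hx
          rw [Finset.mem_filter] at hi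
          rw [Finset.mem_erase] at hx
          have hxV := h2 i hi.1 x hx.2
          rw [Finset.mem_insert] at hxV
          rcases hxV with hxv | hxV
          · exfalso
            obtain ⟨y, s⟩ := x
            simp only at hxv
            subst hxv
            by_cases hs : s = b
            · subst hs
              exact hi.2 hx.2
            · apply hx.1
              have : s = !b := by
                cases s <;> cases b <;> simp_all
              rw [this]
          · exact hxV)
        hb
      refine ⟨Function.update τ v b, fun i hi => ?_⟩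
      by_cases hm : (v, b) ∈ c i
      · exact ⟨(v, b), hm, by simp⟩
      · obtain ⟨x, hx, hx2⟩ := hτ i (Finset.mem_filter.mpr ⟨hi, hm⟩)
        have hx' := Finset.mem_erase.mp hx
        refine ⟨x, hx'.2, ?_⟩
        have hxv : x.1 ≠ v := by
          intro hxv
          obtain ⟨y, s⟩ := x
          simp only at hxv
          subst hxv
          by_cases hs : s = b
          · subst hs
            exact hm hx'.2
          · apply hx'.1
            have : s = !b := by
              cases s <;> cases b <;> simp_all
            rw [this]
        rw [Function.update_of_ne hxv]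
        exact hx2
    have hsum : (∑ i ∈ I.filter (fun i => (v, true) ∉ c i),
          (1 / 2 : ℝ) ^ ((c i).erase (v, !true)).card) +
        (∑ i ∈ I.filter (fun i => (v, false) ∉ c i),
          (1 / 2 : ℝ) ^ ((c i).erase (v, !false)).card) =
        2 * ∑ i ∈ I, (1 / 2 : ℝ) ^ (c i).card := by
      rw [Finset.sum_filter, Finset.sum_filter, ← Finset.sum_add_distrib, Finset.mul_sum]
      apply Finset.sum_congr rfl
      intro i hi
      have hcl := h1 i hi
      by_cases ha : (v, true) ∈ c i
      · have hb : (v, false) ∉ c i := by
          intro hb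
          exact hcl _ ha hb
        have hcard : (c i).card = ((c i).erase (v, true)).card + 1 := by
          rw [Finset.card_erase_of_mem ha]
          have : 0 < (c i).card := Finset.card_pos.mpr ⟨_, ha⟩
          omega
        rw [if_neg (by simpa using ha), if_pos hb, hcard]
        simp only [Bool.not_false]
        rw [pow_succ]
        ring
      · by_cases hb : (v, false) ∈ c i
        · have hcard : (c i).card = ((c i).erase (v, false)).card + 1 := by
            rw [Finset.card_erase_of_mem hb]
            have : 0 < (c i).card := Finset.card_pos.mpr ⟨_, hb⟩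
            omega
          rw [if_pos ha, if_neg (by simpa using hb), hcard]
          simp only [Bool.not_true]
          rw [pow_succ]
          ring
        · rw [if_pos ha, if_pos hb]
          simp only [Bool.not_true, Bool.not_false]
          rw [Finset.erase_eq_of_notMem ha, Finset.erase_eq_of_notMem hb]
          ring
    by_cases ht : ∑ i ∈ I.filter (fun i => (v, true) ∉ c i),
        (1 / 2 : ℝ) ^ ((c i).erase (v, !true)).card < 1
    · exact key true ht
    · apply key false
      push Not at ht
      linarith

theorem sat_of_weight (T : Finset (Finset Lit)) (hT : ∀ C ∈ T, IsClause C)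
    (h : ∑ C ∈ T, (1 / 2 : ℝ) ^ C.card < 1) : Sat T := by
  obtain ⟨τ, hτ⟩ := sat_of_weight_aux (T.biUnion (fun C => C.image Prod.fst)) T id
    (fun C hC => hT C hC)
    (fun C hC x hx => Finset.mem_biUnion.mpr ⟨C, hC, Finset.mem_image_of_mem _ hx⟩) h
  exact ⟨τ, hτ⟩

/-- An unsatisfiable clause-set has a short clause. -/
theorem short_of_unsat (T : Finset (Finset Lit)) (hT : ∀ C ∈ T, IsClause C) (h : ¬ Sat T) :
    ∃ C ∈ T, 2 ^ C.card ≤ T.card := by
  by_contra hcon
  push Not at hcon
  apply h
  rcases T.eq_empty_or_nonempty with h0 | hne
  · subst h0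
    exact ⟨fun _ => true, by simp⟩
  apply sat_of_weight T hT
  have hpos : (0 : ℝ) < T.card := by
    exact_mod_cast Finset.card_pos.mpr hne
  calc ∑ C ∈ T, (1 / 2 : ℝ) ^ C.card < ∑ C ∈ T, (1 / (T.card : ℝ)) := by
        apply Finset.sum_lt_sum_of_nonempty hne
        intro C hC
        rw [one_div, inv_pow, ← one_div]
        apply one_div_lt_one_div_of_lt hpos
        exact_mod_cast hcon C hC
    _ = 1 := by
        rw [Finset.sum_const, nsmul_eq_mul]
        field_simp

end H13.HR
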