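import Pool.Agent.H13.HR.LinA
import Pool.Agent.H13.HR.Weight

/-!
# Short clauses with clashes

`ρ` is a finite set of literals set to true.  `act F ρ`: the clauses not yet satisfied;
`resC ρ C`: what remains of the clause `C`.
-/

namespace H13.HR

open Finset

/-- Clauses of `F` not satisfied by `ρ`. -/
def act (F : Finset (Finset Lit)) (ρ : Finset Lit) : Finset (Finset Lit) :=
  F.filter (fun C => Disjoint C ρ)

/-- The rest of `C`. -/
def resC (ρ : Finset Lit) (C : Finset Lit) : Finset Lit := C.filter (fun x => neg x ∉ ρ)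

/-- The restricted clause-set. -/
def resF (ρ : Finset Lit) (F : Finset (Finset Lit)) : Finset (Finset Lit) :=
  (act F ρ).image (resC ρ)

/-- Clashing active clauses clash in a literal that is not assigned. -/
theorem clash_res {F : Finset (Finset Lit)} {ρ : Finset Lit} {C D : Finset Lit}
    (hC : C ∈ act F ρ) (hD : D ∈ act F ρ) (h : 0 < clash C D) :
    ∃ x ∈ resC ρ C, neg x ∈ resC ρ D := by
  unfold clash at h
  obtain ⟨x, hx⟩ := Finset.card_pos.mp h
  rw [Finset.mem_filter] at hx
  unfold act at hC hD
  rw [Finset.mem_filter] at hC hD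
  refine ⟨x, ?_, ?_⟩
  · unfold resC
    rw [Finset.mem_filter]
    exact ⟨hx.1, fun hn => (Finset.disjoint_left.mp hD.2) hx.2 hn⟩
  · unfold resC
    rw [Finset.mem_filter]
    refine ⟨hx.2, ?_⟩
    rw [neg_neg]
    exact fun hn => (Finset.disjoint_left.mp hC.2) hx.1 hn

/-- If the restricted clause-set is unsatisfiable and has no empty clause, then a clause which
clashes with another active clause is short.
Proof: the set `T` of the rests of all clashing active clauses is unsatisfiable: given `τ`
satisfying `T`, make all literals of the rests of the non-clashing active clauses true; their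
complements occur in no active clause, so nothing is destroyed. Now `short_of_unsat`. -/
theorem exists_short (F : Finset (Finset Lit)) (hF : ∀ C ∈ F, IsClause C) (ρ : Finset Lit)
    (hu : ¬ Sat (resF ρ F)) (he : ∅ ∉ resF ρ F) :
    ∃ C ∈ act F ρ, (∃ D ∈ act F ρ, 0 < clash C D) ∧ 2 ^ (resC ρ C).card ≤ F.card := by
  classical
  set A : Finset (Finset Lit) := (act F ρ).filter (fun C => ∃ D ∈ act F ρ, 0 < clash C D) with hA
  have hAF : A.card ≤ F.card := by
    apply Finset.card_le_card
    exact (Finset.filter_subset _ _).trans (Finset.filter_subset _ _)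
  have hTcl : ∀ C ∈ A.image (resC ρ), IsClause C := by
    intro C hC
    obtain ⟨C₀, hC₀, rfl⟩ := Finset.mem_image.mp hC
    have h1 : C₀ ∈ F := (Finset.mem_filter.mp (Finset.mem_filter.mp hC₀).1).1
    intro x hx hn
    exact hF C₀ h1 x (Finset.mem_filter.mp hx).1 (Finset.mem_filter.mp hn).1
  -- a literal of the rest of a non-clashing clause has no complement in the active clauses
  have key : ∀ C ∈ act F ρ, C ∉ A → ∀ D ∈ act F ρ, ∀ x ∈ C, neg x ∉ D := by
    intro C hC hCA D hD x hx hn
    apply hCA
    rw [hA, Finset.mem_filter]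
    refine ⟨hC, D, hD, ?_⟩
    unfold clash
    exact Finset.card_pos.mpr ⟨x, Finset.mem_filter.mpr ⟨hx, hn⟩⟩
  have hun : ¬ Sat (A.image (resC ρ)) := by
    rintro ⟨τ, hτ⟩
    apply hu
    -- pure literals
    let P : Lit → Prop := fun y => ∃ C ∈ act F ρ, C ∉ A ∧ y ∈ C
    refine ⟨fun v => if P (v, true) then true else if P (v, false) then false else τ v, ?_⟩
    have hval : ∀ x : Lit, P x → ¬ P (neg x) →
        (if P (x.1, true) then true else if P (x.1, false) then false else τ x.1) = x.2 := by
      rintro ⟨v, b⟩ h1 h2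
      cases b
      · have h2' : ¬ P (v, true) := h2
        have h1' : P (v, false) := h1
        simp only [if_neg h2', if_pos h1']
      · have h1' : P (v, true) := h1
        simp only [if_pos h1']
    have hval2 : ∀ x : Lit, ¬ P x → ¬ P (neg x) →
        (if P (x.1, true) then true else if P (x.1, false) then false else τ x.1) = τ x.1 := by
      rintro ⟨v, b⟩ h1 h2
      cases b
      · have h2' : ¬ P (v, true) := h2
        have h1' : ¬ P (v, false) := h1
        simp only [if_neg h2', if_neg h1']
      · have h2' : ¬ P (v, false) := h2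
        have h1' : ¬ P (v, true) := h1
        simp only [if_neg h2', if_neg h1']
    intro E hE
    obtain ⟨C, hC, rfl⟩ := Finset.mem_image.mp hE
    by_cases hCA : C ∈ A
    · obtain ⟨x, hx, hxτ⟩ := hτ (resC ρ C) (Finset.mem_image_of_mem _ hCA)
      refine ⟨x, hx, ?_⟩
      have hxC : x ∈ C := (Finset.mem_filter.mp hx).1
      have h2 : ¬ P (neg x) := by
        rintro ⟨D, hD, hDA, hxD⟩
        have := key D hD hDA C hC (neg x) hxD
        rw [neg_neg] at this
        exact this hxC
      by_cases h1 : P x
      · exact hval x h1 h2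
      · exact (hval2 x h1 h2).trans hxτ
    · have hne : (resC ρ C).Nonempty := by
        rw [Finset.nonempty_iff_ne_empty]
        intro h0
        exact he (h0 ▸ hE)
      obtain ⟨x, hx⟩ := hne
      refine ⟨x, hx, ?_⟩
      have hxC : x ∈ C := (Finset.mem_filter.mp hx).1
      have h1 : P x := ⟨C, hC, hCA, hxC⟩
      have h2 : ¬ P (neg x) := by
        rintro ⟨D, hD, _, hxD⟩
        exact key C hC hCA D hD x hxC hxD
      exact hval x h1 h2
  obtain ⟨E, hE, hle⟩ := short_of_unsat _ hTcl hun
  obtain ⟨C, hC, rfl⟩ := Finset.mem_image.mp hE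
  have hC' := Finset.mem_filter.mp hC
  refine ⟨C, hC'.1, hC'.2, ?_⟩
  exact hle.trans (Finset.card_image_le.trans hAF)

end H13.HR
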