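import Pool.Agent.H13.HR.Short
import Pool.Agent.H13.HR.Hard

/-!
# Unsatisfiable clause-sets of small conflict rank have small hardness
-/

namespace H13.HR

open Finset

/-- Setting a not yet assigned literal. -/
theorem restr_resF (F : Finset (Finset Lit)) (ρ : Finset Lit) (x : Lit) (h1 : x ∉ ρ)
    (h2 : neg x ∉ ρ) : restr x (resF ρ F) = resF (insert x ρ) F := by
  have hnn : ∀ y : Lit, neg (neg y) = y := fun y => by simp [neg]
  ext E
  simp only [restr, resF, act, mem_image, mem_filter]
  constructor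
  · rintro ⟨D, ⟨⟨C, ⟨hCF, hCρ⟩, rfl⟩, hx⟩, rfl⟩
    refine ⟨C, ⟨hCF, ?_⟩, ?_⟩
    · rw [Finset.disjoint_insert_right]
      refine ⟨fun hxC => hx ?_, hCρ⟩
      exact mem_filter.2 ⟨hxC, h2⟩
    · ext y
      simp only [resC, mem_filter, mem_insert, mem_erase, not_or]
      constructor
      · rintro ⟨ha, hb, hc⟩
        refine ⟨fun h => hb ?_, ha, hc⟩
        rw [h, hnn]
      · rintro ⟨ha, hb, hc⟩
        refine ⟨hb, fun h => ha ?_, hc⟩
        rw [← hnn y, h]
  · rintro ⟨C, ⟨hCF, hCρ⟩, rfl⟩
    rw [Finset.disjoint_insert_right] at hCρ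
    refine ⟨resC ρ C, ⟨⟨C, ⟨hCF, hCρ.2⟩, rfl⟩, fun h => hCρ.1 (mem_filter.1 h).1⟩, ?_⟩
    ext y
    simp only [resC, mem_filter, mem_insert, mem_erase, not_or]
    constructor
    · rintro ⟨hb, ha, hc⟩
      refine ⟨ha, fun h => hb ?_, hc⟩
      rw [← hnn y, h]
    · rintro ⟨ha, hb, hc⟩
      refine ⟨fun h => hb ?_, ha, hc⟩
      rw [h, hnn]

theorem resF_empty (F : Finset (Finset Lit)) : resF ∅ F = F := by
  ext E
  simp only [resF, act, mem_image, mem_filter]
  constructor
  · rintro ⟨C, ⟨hC, -⟩, rfl⟩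
    have : resC ∅ C = C := by
      ext y
      simp [resC]
    rw [this]
    exact hC
  · intro h
    refine ⟨E, ⟨h, by simp⟩, ?_⟩
    ext y
    simp [resC]

theorem act_empty (F : Finset (Finset Lit)) : act F ∅ = F := by
  ext E
  simp [act]

theorem act_insert (F : Finset (Finset Lit)) (ρ : Finset Lit) (x : Lit) :
    act F (insert x ρ) = (act F ρ).filter (fun D => x ∉ D) := by
  ext C
  simp only [act, mem_filter]
  rw [Finset.disjoint_insert_right]
  tauto

/-- The main induction: lexicographic in `(r, s)` and the number `n` of unassigned variables.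
With `C` from `exists_short`, `Y = resC ρ C`, `x` from `split_step`: setting `neg x` true removes
the clauses... (left, `s` drops or the rank drops), setting `x` true is the right branch. -/
theorem hard_aux (F : Finset (Finset Lit)) (hF : ∀ C ∈ F, IsClause C) (L S : ℕ) (hL : 1 ≤ L)
    (hFL : F.card < 2 ^ L) (hS : ∀ r, r ≤ rk F → F.card ^ r * (L - 1) ^ S < L ^ S) :
    ∀ (n r s : ℕ) (ρ : Finset Lit),
      ((F.sup id).filter (fun x => x ∉ ρ ∧ neg x ∉ ρ)).card ≤ n →
      ¬ Sat (resF ρ F) → rk (act F ρ) ≤ r → r ≤ rk F →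
      (rk (act F ρ) = r → nb (act F ρ) * (L - 1) ^ s < L ^ s) →
      HD (r * S + s) (resF ρ F) := by
  have hnn : ∀ y : Lit, neg (neg y) = y := fun y => by simp [neg]
  intro n
  induction n with
  | zero =>
    intro r s ρ hn hu hr hrF hs
    by_cases he : ∅ ∈ resF ρ F
    · exact HD.nil _ _ he
    · exfalso
      obtain ⟨C, hC, ⟨D, hD, hCD⟩, hcard⟩ := exists_short F hF ρ hu he
      obtain ⟨x, hx, -⟩ := clash_res hC hD hCD
      have hxC : x ∈ C := (mem_filter.1 hx).1
      have hxn : neg x ∉ ρ := (mem_filter.1 hx).2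
      have hxρ : x ∉ ρ := fun h => (Finset.disjoint_left.1 (mem_filter.1 hC).2) hxC h
      have hmem : x ∈ (F.sup id).filter (fun x => x ∉ ρ ∧ neg x ∉ ρ) := by
        refine mem_filter.2 ⟨?_, hxρ, hxn⟩
        rw [Finset.mem_sup]
        exact ⟨C, (mem_filter.1 hC).1, hxC⟩
      have := Finset.card_pos.2 ⟨x, hmem⟩
      omega
  | succ n ih =>
    -- first the case of exact rank
    have key : ∀ (r s : ℕ) (ρ : Finset Lit),
      ((F.sup id).filter (fun x => x ∉ ρ ∧ neg x ∉ ρ)).card ≤ n + 1 →
      ¬ Sat (resF ρ F) → rk (act F ρ) = r → r ≤ rk F →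
      nb (act F ρ) * (L - 1) ^ s < L ^ s →
      HD (r * S + s) (resF ρ F) := by
      intro r s ρ hn hu hr hrF hs
      by_cases he : ∅ ∈ resF ρ F
      · exact HD.nil _ _ he
      obtain ⟨C, hC, ⟨D, hD, hCD⟩, hcard⟩ := exists_short F hF ρ hu he
      have hLc : (resC ρ C).card ≤ L := by
        have : 2 ^ (resC ρ C).card < 2 ^ L := lt_of_le_of_lt hcard hFL
        exact le_of_lt ((Nat.pow_lt_pow_iff_right (by norm_num)).1 this)
      obtain ⟨x, hx, hstep⟩ := split_step (act F ρ) C hC ⟨D, hD, hCD⟩ (resC ρ C) L hLc (by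
        intro D' hD' hCD'
        obtain ⟨y, hy, hy'⟩ := clash_res hC hD' hCD'
        exact ⟨y, hy, (mem_filter.1 hy').1⟩)
      have hxC : x ∈ C := (mem_filter.1 hx).1
      have hxn : neg x ∉ ρ := (mem_filter.1 hx).2
      have hxρ : x ∉ ρ := fun h => (Finset.disjoint_left.1 (mem_filter.1 hC).2) hxC h
      have hmem : x ∈ (F.sup id).filter (fun x => x ∉ ρ ∧ neg x ∉ ρ) := by
        refine mem_filter.2 ⟨?_, hxρ, hxn⟩
        rw [Finset.mem_sup]
        exact ⟨C, (mem_filter.1 hC).1, hxC⟩
      -- counting unassigned literals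
      have hcnt : ∀ y : Lit, (y = x ∨ y = neg x) →
          ((F.sup id).filter (fun z => z ∉ insert y ρ ∧ neg z ∉ insert y ρ)).card ≤ n := by
        intro y hy
        have hlt : ((F.sup id).filter (fun z => z ∉ insert y ρ ∧ neg z ∉ insert y ρ)).card <
            ((F.sup id).filter (fun x => x ∉ ρ ∧ neg x ∉ ρ)).card := by
          apply Finset.card_lt_card
          rw [Finset.ssubset_iff_of_subset]
          · refine ⟨x, hmem, ?_⟩
            intro h
            have h2 := (mem_filter.1 h).2
            rcases hy with rfl | rfl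
            · exact h2.1 (mem_insert_self _ _)
            · exact h2.2 (mem_insert_self _ _)
          · intro z hz
            have h2 := mem_filter.1 hz
            refine mem_filter.2 ⟨h2.1, fun h => h2.2.1 (mem_insert_of_mem h),
              fun h => h2.2.2 (mem_insert_of_mem h)⟩
        omega
      have hnbpos := nb_pos (act F ρ)
      obtain ⟨s', rfl⟩ : ∃ s', s = s' + 1 := by
        cases s with
        | zero =>
          simp only [pow_zero, mul_one] at hs
          omega
        | succ s' => exact ⟨s', rfl⟩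
      have hsub : ∀ y : Lit, act F (insert y ρ) ⊆ act F ρ := by
        intro y
        rw [act_insert]
        exact filter_subset _ _
      have hleft : HD (r * S + s') (restr (neg x) (resF ρ F)) := by
        rw [restr_resF F ρ (neg x) hxn (by rw [hnn]; exact hxρ)]
        refine ih r s' (insert (neg x) ρ) (hcnt _ (Or.inr rfl)) ?_ ?_ hrF ?_
        · rw [← restr_resF F ρ (neg x) hxn (by rw [hnn]; exact hxρ)]
          exact sat_restr hu _
        · rw [← hr]
          exact rk_mono (hsub _)
        · intro hr'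
          have hst := hstep (by rw [← act_insert, hr', hr])
          rw [← act_insert] at hst
          have h1 : nb (act F (insert (neg x) ρ)) * (L - 1) ^ s' * L < L ^ s' * L := by
            calc nb (act F (insert (neg x) ρ)) * (L - 1) ^ s' * L
                = (nb (act F (insert (neg x) ρ)) * L) * (L - 1) ^ s' := by ring
              _ ≤ ((L - 1) * nb (act F ρ)) * (L - 1) ^ s' := Nat.mul_le_mul_right _ hst
              _ = nb (act F ρ) * (L - 1) ^ (s' + 1) := by ring
              _ < L ^ (s' + 1) := hs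
              _ = L ^ s' * L := by ring
          exact lt_of_mul_lt_mul_right h1 (Nat.zero_le _)
      have hright : HD (r * S + s' + 1) (restr (neg (neg x)) (resF ρ F)) := by
        rw [hnn, restr_resF F ρ x hxρ hxn]
        refine ih r (s' + 1) (insert x ρ) (hcnt _ (Or.inl rfl)) ?_ ?_ hrF ?_
        · rw [← restr_resF F ρ x hxρ hxn]
          exact sat_restr hu _
        · rw [← hr]
          exact rk_mono (hsub _)
        · intro hr'
          have hle : nb (act F (insert x ρ)) ≤ nb (act F ρ) := by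
            classical
            unfold nb
            apply Finset.card_le_card
            intro X hX
            have h2 := mem_filter.1 hX
            refine mem_filter.2 ⟨?_, rb_mono (hsub x) (by rw [hr', hr]) h2.2⟩
            rw [mem_powerset] at h2 ⊢
            exact h2.1.trans (hsub x)
          exact lt_of_le_of_lt (Nat.mul_le_mul_right _ hle) hs
      exact HD.node _ _ (neg x) hleft hright
    intro r s ρ hn hu hr hrF hs
    rcases Nat.lt_or_ge (rk (act F ρ)) r with hlt | hge
    · -- the rank is smaller: use `S`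
      have h1 : HD (rk (act F ρ) * S + S) (resF ρ F) := by
        refine key _ S ρ hn hu rfl (by omega) ?_
        have h2 : nb (act F ρ) ≤ F.card ^ rk (act F ρ) :=
          (nb_le _).trans (Nat.pow_le_pow_left (card_le_card (filter_subset _ _)) _)
        exact lt_of_le_of_lt (Nat.mul_le_mul_right _ h2) (hS _ (by omega))
      refine h1.mono ?_
      have h3 : (rk (act F ρ) + 1) * S ≤ r * S := Nat.mul_le_mul_right _ hlt
      nlinarith
    · have h4 : rk (act F ρ) = r := le_antisymm hr hge
      exact key r s ρ hn hu h4 hrF (hs h4)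

theorem two_mul_pred_pow (L : ℕ) (hL : 1 ≤ L) : 2 * (L - 1) ^ L ≤ L ^ L := by
  rcases Nat.eq_or_lt_of_le hL with h | h
  · subst h
    simp
  obtain ⟨k, rfl⟩ : ∃ k, L = k + 1 := ⟨L - 1, by omega⟩
  have hk : 0 < k := by omega
  simp only [Nat.add_sub_cancel]
  -- (k+1)^(k+1) ≥ k^(k+1) + (k+1) k^k ≥ 2 k^(k+1)
  have h1 : ∀ j : ℕ, k ^ j + j * k ^ (j - 1) ≤ (k + 1) ^ j := by
    intro j
    induction j with
    | zero => simp
    | succ j ihj =>
      rcases Nat.eq_zero_or_pos j with h0 | h0
      · subst h0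
        simp
      · obtain ⟨i, rfl⟩ : ∃ i, j = i + 1 := ⟨j - 1, by omega⟩
        simp only [Nat.add_sub_cancel] at ihj ⊢
        calc k ^ (i + 1 + 1) + (i + 1 + 1) * k ^ (i + 1)
            ≤ (k ^ (i + 1) + (i + 1) * k ^ i) * (k + 1) := by
              have : (k ^ (i + 1) + (i + 1) * k ^ i) * (k + 1) =
                k ^ (i + 1 + 1) + (i + 1 + 1) * k ^ (i + 1) + (i + 1) * k ^ i := by ring
              omega
          _ ≤ (k + 1) ^ (i + 1) * (k + 1) := Nat.mul_le_mul_right _ ihj
          _ = (k + 1) ^ (i + 1 + 1) := by ring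
  have h2 := h1 (k + 1)
  simp only [Nat.add_sub_cancel] at h2
  have h3 : k ^ (k + 1) = k * k ^ k := by ring
  have h4 : 2 * k ^ (k + 1) ≤ k ^ (k + 1) + (k + 1) * k ^ k := by
    rw [h3]
    nlinarith [Nat.zero_le (k ^ k)]
  exact h4.trans h2

/-- Hardness of unsatisfiable clause-sets of conflict rank at most `R`. -/
theorem hard_main (F : Finset (Finset Lit)) (hF : ∀ C ∈ F, IsClause C) (hu : ¬ Sat F) (R : ℕ)
    (hR : rk F ≤ R) : HD ((R + 1) ^ 2 * (Nat.log 2 F.card + 1) ^ 2) F := by
  obtain ⟨L, hLdef⟩ : ∃ L, L = Nat.log 2 F.card + 1 := ⟨_, rfl⟩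
  have hL : 1 ≤ L := by omega
  have hFL : F.card < 2 ^ L := by
    rw [hLdef]
    exact Nat.lt_pow_succ_log_self (by norm_num) _
  obtain ⟨S, hSdef⟩ : ∃ S, S = L * (R * L + 1) := ⟨_, rfl⟩
  have hS : ∀ r, r ≤ rk F → F.card ^ r * (L - 1) ^ S < L ^ S := by
    intro r hr
    rcases Nat.eq_or_lt_of_le hL with h | h
    · have hS1 : 0 < S := by
        rw [hSdef]
        positivity
      rw [← h]
      simp [hS1.ne']
    · have hpos : 0 < (L - 1) ^ S := Nat.pow_pos (by omega)
      have h1 : F.card ^ r ≤ 2 ^ (R * L) := by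
        calc F.card ^ r ≤ (2 ^ L) ^ r := Nat.pow_le_pow_left hFL.le _
          _ = 2 ^ (L * r) := by rw [← pow_mul]
          _ ≤ 2 ^ (R * L) := by
            apply Nat.pow_le_pow_right (by norm_num)
            rw [mul_comm R L]
            exact Nat.mul_le_mul_left _ (hr.trans hR)
      have h2 : 2 ^ (R * L + 1) * (L - 1) ^ S ≤ L ^ S := by
        rw [hSdef, pow_mul, pow_mul, ← mul_pow]
        exact Nat.pow_le_pow_left (two_mul_pred_pow L hL) _
      calc F.card ^ r * (L - 1) ^ S ≤ 2 ^ (R * L) * (L - 1) ^ S := Nat.mul_le_mul_right _ h1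
        _ < 2 ^ (R * L + 1) * (L - 1) ^ S := by
          apply Nat.mul_lt_mul_of_pos_right _ hpos
          exact Nat.pow_lt_pow_right (by norm_num) (by omega)
        _ ≤ L ^ S := h2
  have hmain := hard_aux F hF L S hL hFL hS _ (rk F) S ∅ le_rfl
    (by rw [resF_empty]; exact hu) (by rw [act_empty]) le_rfl (by
      intro _
      rw [act_empty]
      exact lt_of_le_of_lt (Nat.mul_le_mul_right _ (nb_le F)) (hS _ le_rfl))
  rw [resF_empty] at hmain
  refine hmain.mono ?_
  rw [← hLdef]
  calc rk F * S + S = (rk F + 1) * (L * (R * L + 1)) := by rw [hSdef]; ring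
    _ ≤ (R + 1) * (L * ((R + 1) * L)) := by
      apply Nat.mul_le_mul (by omega)
      apply Nat.mul_le_mul_left
      have : (R + 1) * L = R * L + L := by ring
      omega
    _ = (R + 1) ^ 2 * L ^ 2 := by ring

end H13.HR
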